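import Pool.Agent.V11293.EXU.Lower

/-!
# MP_ad0d06_co : bounds for the distinguishing extension number of the Euclidean plane
-/

namespace Pool.Agent.Results.MP_ad0d06_co.SevenToNineteen

/-- A colouring `c` is `Γ`-distinguishing if only the identity of `Γ` preserves it. -/
def Distinguishing (Γ : Type*) {X K : Type*} [Group Γ] [MulAction Γ X] (c : X → K) : Prop :=
  ∀ g : Γ, (∀ x, c (g • x) = c x) → g = 1

/-- `D_Γ(X)`: the least `k` for which a `Γ`-distinguishing `k`-colouring exists. -/
noncomputable def distNumber (Γ X : Type*) [Group Γ] [MulAction Γ X] : ℕ :=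
  sInf {k : ℕ | ∃ c : X → Fin k, Distinguishing Γ c}

/-- The pointwise stabiliser of `W` in `Γ` is trivial. -/
def TrivialStab (Γ : Type*) {X : Type*} [Group Γ] [MulAction Γ X] (W : Set X) : Prop :=
  ∀ g : Γ, (∀ w ∈ W, g • w = w) → g = 1

/-- `P(W)` with `k` colours: every `k`-colouring of the complement of `W` extends to a
`Γ`-distinguishing `k`-colouring of `X`. -/
def ExtProp (Γ : Type*) {X : Type*} [Group Γ] [MulAction Γ X] (k : ℕ) (W : Set X) : Prop :=
  ∀ c : {x // x ∉ W} → Fin k, ∃ c' : X → Fin k,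
    (∀ x : {x // x ∉ W}, c' x = c x) ∧ Distinguishing Γ c'

/-- `ext_D(X, Γ)`: the least `n` such that `P(W)`, with `k = D_Γ(X)` colours, holds for every
`W` (finite or infinite) with at least `n` elements and trivial pointwise stabiliser; `⊤` if there
is no such `n`. -/
noncomputable def extD (Γ X : Type*) [Group Γ] [MulAction Γ X] : ℕ∞ :=
  sInf ((fun n : ℕ => (n : ℕ∞)) '' {n : ℕ | ∀ W : Set X, TrivialStab Γ W → (n : ℕ∞) ≤ W.encard →
    ExtProp Γ (distNumber Γ X) W})

/-- The Euclidean plane. -/
abbrev Plane : Type := EuclideanSpace ℝ (Fin 2)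

/-- `E(2)`: the full isometry group of the Euclidean plane. -/
def E2 : Subgroup (Equiv.Perm Plane) where
  carrier := {g | Isometry g}
  mul_mem' := fun hg hh => hg.comp hh
  one_mem' := isometry_id
  inv_mem' := fun {g} hg => hg.right_inv g.apply_symm_apply

theorem upper {W : Set Plane} (hadm : TrivialStab E2 W) (hW : (19 : ℕ∞) ≤ W.encard) :
    ExtProp E2 2 W := by
  intro c
  obtain ⟨c', h1, h2⟩ := Pool.Agent.V11293.EXU.upper_core W
    (fun g hg hw => congrArg Subtype.val (hadm ⟨g, hg⟩ hw)) hW c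
  exact ⟨c', h1, fun g hg => Subtype.ext (h2 g g.2 hg)⟩

theorem two_colours : ∃ c : Plane → Fin 2, Distinguishing E2 c := by
  obtain ⟨c', _, hc'⟩ := upper (W := Set.univ)
    (fun g hg => Subtype.ext (Equiv.ext fun x => hg x (Set.mem_univ x)))
    (by
      have : (Set.univ : Set Plane).encard = ⊤ := Set.infinite_univ.encard_eq
      rw [this]; exact le_top) (fun x => 0)
  exact ⟨c', hc'⟩

theorem distNumber_eq : distNumber E2 Plane = 2 := by
  apply le_antisymm
  · exact Nat.sInf_le two_colours
  · apply le_csInf ⟨2, two_colours⟩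
    rintro k ⟨c, hc⟩
    by_contra hk
    push Not at hk
    have htr : ∃ g : E2, g ≠ 1 := by
      refine ⟨⟨Equiv.addRight (EuclideanSpace.single 0 1), ?_⟩, ?_⟩
      · exact (IsometryEquiv.addRight (EuclideanSpace.single (0 : Fin 2) (1 : ℝ))).isometry
      · intro h
        have h1 := congrArg (fun g : E2 => (g : Equiv.Perm Plane) 0) h
        have h2 : (0 : Plane) + EuclideanSpace.single (0 : Fin 2) (1 : ℝ) = 0 := h1
        rw [zero_add] at h2
        have h3 := congrArg (fun v : Plane => v 0) h2
        simp at h3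
    obtain ⟨g, hg⟩ := htr
    interval_cases k
    · exact (c 0).elim0
    · exact hg (hc g (fun x => Subsingleton.elim _ _))

theorem lower : (7 : ℕ∞) ≤ extD E2 Plane := by
  unfold extD
  rw [distNumber_eq]
  apply le_sInf
  rintro _ ⟨n, hn, rfl⟩
  by_contra hlt
  push Not at hlt
  have hn6 : n ≤ 6 := by
    have : (n : ℕ∞) < (7 : ℕ) := hlt
    have := ENat.coe_lt_coe.1 this
    omega
  apply Pool.Agent.V11293.EXU.lower_core
  intro c
  obtain ⟨c', h1, h2⟩ := hn Pool.Agent.V11293.EXU.W6
    (fun g hg => Subtype.ext (Pool.Agent.V11293.EXU.W6_adm g g.2 hg))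
    (by rw [Pool.Agent.V11293.EXU.W6_card]; exact_mod_cast hn6) c
  exact ⟨c', h1, fun g hg hgc => congrArg Subtype.val (h2 ⟨g, hg⟩ hgc)⟩

/-- The distinguishing number of the Euclidean plane under its full isometry group is two, and
its distinguishing extension number lies between `7` and `19`. -/
theorem result : distNumber E2 Plane = 2 ∧ 7 ≤ extD E2 Plane ∧ extD E2 Plane ≤ 19 := by
  refine ⟨distNumber_eq, lower, ?_⟩
  unfold extD
  rw [distNumber_eq]
  apply sInf_le
  exact ⟨19, fun W hadm hW => upper hadm hW, rfl⟩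

end Pool.Agent.Results.MP_ad0d06_co.SevenToNineteen
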